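import Pool.Agent.Run7.h566.WS.Fam

/-! Weyl sums in multilinear families. -/

set_option autoImplicit false

open Finset
open scoped Classical

namespace Pool.Agent.Run7.h566.WS

open Pool.Agent.Run7.h566.LW (kk exp_bound)
open Pool.Agent.Run7.h566.ML (cube card_cube Free)
open Pool.Agent.Run7.h556.MW (Mv Mv_all)
open Pool.Agent.W928.MW (e sm)

lemma e_nk (t : ℝ) : e t = Pool.Agent.H469R2.NK.e t := by
  unfold Pool.Agent.W928.MW.e Pool.Agent.H469R2.NK.e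
  push_cast
  ring_nf

lemma twelve (M : ℕ) (hM : 1 ≤ M) (u v : ℕ) (hu : u ≤ kk M) (hv : v ^ 24 ≤ M) : (u * v) ^ 12 ≤ M := by
  have hM0 : (0 : ℝ) ≤ M := by positivity
  have h1 : (u : ℝ) ≤ (M : ℝ) ^ (1 / 24 : ℝ) := by
    have h2 : (u : ℝ) ≤ (kk M : ℝ) := by exact_mod_cast hu
    refine h2.trans ?_
    unfold kk
    exact Nat.floor_le (by positivity)
  have h3 : (u : ℝ) ^ 24 ≤ M := by
    calc (u : ℝ) ^ 24 ≤ ((M : ℝ) ^ (1 / 24 : ℝ)) ^ 24 := pow_le_pow_left₀ (by positivity) h1 24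
      _ = M := by
        rw [← Real.rpow_natCast, ← Real.rpow_mul hM0]
        norm_num
  have h4 : u ^ 24 ≤ M := by exact_mod_cast h3
  have h5 : ((u * v) ^ 12) ^ 2 ≤ M ^ 2 := by
    calc ((u * v) ^ 12) ^ 2 = u ^ 24 * v ^ 24 := by ring
      _ ≤ M * M := Nat.mul_le_mul h4 hv
      _ = M ^ 2 := by ring
  exact (Nat.pow_le_pow_iff_left (by norm_num)).mp h5

theorem main (k i n : ℕ) (hk : 2 ≤ k) (hi : 1 ≤ i) (hik : i ≤ k) (η ε ρ : ℝ) (hη1 : η ≤ 1)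
    (hε : 0 ≤ ε) (hρ : 0 < ρ) (hκ : ρ < (i : ℝ) - (2 ^ i + 2) * (η - ε)) :
    ∃ B : ℕ, ∃ C : ℝ, 0 < C ∧ ∀ M L : ℕ, 1 ≤ L → (2 * L) ^ B ≤ M → ∀ θ : ℝ,
      (∀ b : ℕ, 1 ≤ b → b ^ 12 ≤ M → ∀ t : ℤ, (M : ℝ) ^ (-(1 / 2) : ℝ) < |(b : ℝ) * θ - t|) →
      ∀ x : Fin (n + 2) → (Fin (n + 2) → ℕ) → ℝ, (∀ j, Free j (x j)) → ∀ N₀ : ℕ, 1 ≤ N₀ →
      (((cube (n + 2) M).filter fun a => ∃ N : ℕ, N₀ ≤ N ∧ N ≤ L ∧ ∃ ξ : ℝ,
        (N : ℝ) ^ (1 - η + ε) < ‖sm k N ((∏ i, (a i : ℝ)) * θ + ∑ j, x j a) ξ‖).card : ℝ) ≤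
        C * (N₀ : ℝ) ^ (-((i : ℝ) - (2 ^ i + 2) * (η - ε) - ρ)) * (M : ℝ) ^ (n + 2) := by
  set s : ℕ := 2 ^ (i - 1) + 1 with hs
  have e1 : (2 : ℝ) ^ i = 2 * 2 ^ (i - 1) := by
    rw [← pow_succ']; congr 1; omega
  have e2 : (i : ℝ) + 1 - 1 - 2 * (s : ℝ) * (η - ε) = (i : ℝ) - (2 ^ i + 2) * (η - ε) := by
    rw [hs]
    push_cast
    rw [e1]
    ring
  have hg : (i : ℝ) + 1 ≤ 2 * (s : ℝ) := by
    have h1 : i < 2 ^ i := Nat.lt_two_pow_self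
    have h2 : (i : ℝ) < 2 ^ i := by exact_mod_cast h1
    rw [hs]
    push_cast
    rw [e1] at h2
    linarith
  obtain ⟨C₂, hC₂, hexp⟩ := exp_bound n
  obtain ⟨C, hC, hf⟩ := fam s k ((i : ℝ) + 1) η ε ρ C₂ (by rw [hs]; exact Nat.le_add_left 1 _) (Mv_all k i hk hi hik) hg hη1 hε hρ
    (by linarith) (by rw [e2]; exact hκ)
  rw [e2] at hf
  refine ⟨24 * (s + k) + 2 * s * (48 * 2 ^ (n + 1)), C, hC, fun M L hL hLM θ hθ x hx N₀ hN₀ => ?_⟩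
  have h2L : 1 ≤ 2 * L := by omega
  have hM : 1 ≤ M := le_trans (Nat.one_le_pow _ _ (by omega)) hLM
  have hM0 : (0 : ℝ) < M := by exact_mod_cast hM
  have h24 : (2 * L) ^ (24 * (s + k)) ≤ M := le_trans (Nat.pow_le_pow_right h2L (by omega)) hLM
  have hbig : ((2 * L) ^ (2 * s)) ^ (48 * 2 ^ (n + 1)) ≤ M := by
    rw [← pow_mul]
    exact le_trans (Nat.pow_le_pow_right h2L (by omega)) hLM
  have h := hf (Fin (n + 2) → ℕ) (cube (n + 2) M) (fun a => (∏ i, (a i : ℝ)) * θ + ∑ j, x j a) L hL ?_ N₀ hN₀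
  · rw [card_cube] at h
    push_cast at h
    exact h
  intro D hD hD2
  have hD24 : D.natAbs ^ 24 ≤ M := by
    have h1 : s ≤ (2 * L) ^ s := (Nat.lt_two_pow_self).le.trans (Nat.pow_le_pow_left (by omega) s)
    calc D.natAbs ^ 24 ≤ (s * (2 * L) ^ k) ^ 24 := Nat.pow_le_pow_left hD2 24
      _ ≤ ((2 * L) ^ s * (2 * L) ^ k) ^ 24 := Nat.pow_le_pow_left (Nat.mul_le_mul_right _ h1) 24
      _ = (2 * L) ^ (24 * (s + k)) := by rw [← pow_add, ← pow_mul, mul_comm (s + k) 24]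
      _ ≤ M := h24
  have h2 := hexp M hM ((D : ℝ) * θ) (fun u hu1 hu2 t => by
      have hD1 : 1 ≤ D.natAbs := Int.natAbs_pos.mpr hD
      have h3 := hθ (u * D.natAbs) (Nat.one_le_iff_ne_zero.mpr (by positivity)) (twelve M hM u D.natAbs hu2 hD24)
      rcases Int.natAbs_eq D with hc | hc
      · have h4 := h3 t
        have h5 : ((u * D.natAbs : ℕ) : ℝ) * θ = (u : ℝ) * ((D : ℝ) * θ) := by
          have hcc : (D : ℝ) = (((D.natAbs : ℕ) : ℤ) : ℝ) := congrArg (fun z : ℤ => (z : ℝ)) hc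
          rw [Int.cast_natCast] at hcc
          rw [hcc, Nat.cast_mul]
          ring
        rw [h5] at h4
        exact h4
      · have h4 := h3 (-t)
        have h5 : ((u * D.natAbs : ℕ) : ℝ) * θ = -((u : ℝ) * ((D : ℝ) * θ)) := by
          have hcc : (D : ℝ) = ((-((D.natAbs : ℕ) : ℤ) : ℤ) : ℝ) := congrArg (fun z : ℤ => (z : ℝ)) hc
          rw [Int.cast_neg, Int.cast_natCast] at hcc
          rw [hcc, Nat.cast_mul]
          ring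
        rw [h5] at h4
        have h6 : |(u : ℝ) * ((D : ℝ) * θ) - t| = |-((u : ℝ) * ((D : ℝ) * θ)) - ((-t : ℤ) : ℝ)| := by
          rw [← abs_neg]
          congr 1
          push_cast
          ring
        rw [h6]
        exact h4)
    (fun j a => Pool.Agent.H469R2.NK.e ((D : ℝ) * x j a))
    (fun j a => (Pool.Agent.H469R2.NK.norm_e _).le)
    (fun j a a' haa => by
      beta_reduce
      rw [hx j a a' haa])
  have h7 : ‖∑ a ∈ cube (n + 2) M, e (((∏ i, (a i : ℝ)) * θ + ∑ j, x j a) * (D : ℝ))‖ ≤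
      C₂ * (M : ℝ) ^ (-(1 / (48 * 2 ^ (n + 1))) : ℝ) * (M : ℝ) ^ (n + 2) := by
    refine le_trans (le_of_eq ?_) h2
    congr 1
    refine sum_congr rfl fun a _ => ?_
    rw [← Pool.Agent.R485.Mult.e_sum, ← Pool.Agent.H469R2.NK.e_add, e_nk]
    congr 1
    rw [add_mul, sum_mul]
    congr 1
    · ring
    · exact sum_congr rfl fun j _ => mul_comm _ _
  refine h7.trans ?_
  rw [card_cube, le_div_iff₀ (by positivity)]
  push_cast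
  have h8 : (2 * (L : ℝ)) ^ (2 * s) ≤ (M : ℝ) ^ (1 / (48 * 2 ^ (n + 1)) : ℝ) := by
    have h9 : ((2 * (L : ℝ)) ^ (2 * s)) ^ (48 * 2 ^ (n + 1)) ≤ (M : ℝ) := by exact_mod_cast hbig
    have h10 := Real.pow_rpow_inv_natCast (x := (2 * (L : ℝ)) ^ (2 * s)) (by positivity)
      (show (48 * 2 ^ (n + 1) : ℕ) ≠ 0 by positivity)
    rw [← h10]
    have h11 : (((48 * 2 ^ (n + 1) : ℕ) : ℝ))⁻¹ = (1 / (48 * 2 ^ (n + 1)) : ℝ) := by
      push_cast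
      rw [one_div]
    rw [h11]
    exact Real.rpow_le_rpow (by positivity) h9 (by positivity)
  have h12 : (M : ℝ) ^ (-(1 / (48 * 2 ^ (n + 1))) : ℝ) * (2 * (L : ℝ)) ^ (2 * s) ≤ 1 := by
    calc (M : ℝ) ^ (-(1 / (48 * 2 ^ (n + 1))) : ℝ) * (2 * (L : ℝ)) ^ (2 * s)
        ≤ (M : ℝ) ^ (-(1 / (48 * 2 ^ (n + 1))) : ℝ) * (M : ℝ) ^ (1 / (48 * 2 ^ (n + 1)) : ℝ) :=
          mul_le_mul_of_nonneg_left h8 (by positivity)
      _ = 1 := by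
        rw [← Real.rpow_add hM0, neg_add_cancel, Real.rpow_zero]
  calc C₂ * (M : ℝ) ^ (-(1 / (48 * 2 ^ (n + 1))) : ℝ) * (M : ℝ) ^ (n + 2) * (2 * (L : ℝ)) ^ (2 * s)
      = C₂ * (M : ℝ) ^ (n + 2) * ((M : ℝ) ^ (-(1 / (48 * 2 ^ (n + 1))) : ℝ) * (2 * (L : ℝ)) ^ (2 * s)) := by ring
    _ ≤ C₂ * (M : ℝ) ^ (n + 2) * 1 := mul_le_mul_of_nonneg_left h12 (by positivity)
    _ = C₂ * (M : ℝ) ^ (n + 2) := mul_one _

end Pool.Agent.Run7.h566.WS
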