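import Pool.Agent.Run7.h566.WS.Sum

/-! Weyl sums over families, all lengths in a range. -/

set_option autoImplicit false

open Finset
open scoped Classical

namespace Pool.Agent.Run7.h566.WS

open Pool.Agent.Run7.h556.MW (Mv Mv_all)
open Pool.Agent.W928.MW (e sm)

/-- all dyadic blocks -/
lemma blockAll (s k : ℕ) (g η ε ρ C₂ : ℝ) (hs : 1 ≤ s) (hM : Mv s k g) (hg : g ≤ 2 * s) (hη1 : η ≤ 1)
    (hε : 0 ≤ ε) (hρ : 0 < ρ) (hC₂ : 0 ≤ C₂) (hκ : ρ ≤ g - 1 - 2 * s * (η - ε)) :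
    ∃ K : ℝ, 0 < K ∧ ∀ i : ℕ, ∀ (ι : Type) (A : Finset ι) (T : ι → ℝ) (E : ℝ), 0 ≤ E →
      (∀ D : ℤ, D ≠ 0 → D.natAbs ≤ s * (2 ^ i) ^ k → ‖∑ a ∈ A, e (T a * (D : ℝ))‖ ≤ E) →
      ((2 : ℝ) ^ i) ^ (2 * s - 1) * E ≤ C₂ * A.card →
      ((A.filter fun a => badAt k (1 - η + ε) (T a) i).card : ℝ) ≤
        K * ((2 : ℝ) ^ (-(g - 1 - 2 * s * (η - ε) - ρ))) ^ i * A.card := by
  obtain ⟨K, hK, i1, h⟩ := block s k g η ε ρ C₂ hs hM hg hη1 hε hρ hC₂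
  set κ : ℝ := g - 1 - 2 * s * (η - ε) - ρ with hκ'
  have hκ0 : 0 ≤ κ := by rw [hκ']; linarith
  have hconv : ∀ i : ℕ, ((2 : ℝ) ^ (-κ)) ^ i = ((2 : ℝ) ^ i) ^ (-κ) := by
    intro i
    rw [← Real.rpow_natCast ((2 : ℝ) ^ (-κ)) i, ← Real.rpow_natCast (2 : ℝ) i, ← Real.rpow_mul (by norm_num),
      ← Real.rpow_mul (by norm_num)]
    congr 1
    ring
  have hpos : ∀ i : ℕ, (0 : ℝ) < ((2 : ℝ) ^ (-κ)) ^ i := fun i => by positivity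
  refine ⟨K + (((2 : ℝ) ^ (-κ)) ^ i1)⁻¹, by positivity, fun i ι A T E hE0 hE hE2 => ?_⟩
  rcases le_or_gt i1 i with hi | hi
  · refine (h i hi ι A T E hE0 hE hE2).trans ?_
    apply mul_le_mul_of_nonneg_right _ (by positivity)
    have e1 : (-(g - 1 - 2 * s * (η - ε)) + ρ) = -κ := by rw [hκ']; ring
    rw [e1, ← hconv]
    apply mul_le_mul_of_nonneg_right _ (hpos i).le
    have := hpos i1
    have h2 : (0 : ℝ) ≤ (((2 : ℝ) ^ (-κ)) ^ i1)⁻¹ := by positivity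
    linarith
  · have h1 : ((A.filter fun a => badAt k (1 - η + ε) (T a) i).card : ℝ) ≤ A.card := by
      exact_mod_cast card_filter_le _ _
    refine h1.trans ?_
    apply le_mul_of_one_le_left (by positivity)
    have h2 : (2 : ℝ) ^ (-κ) ≤ 1 := Real.rpow_le_one_of_one_le_of_nonpos (by norm_num) (by linarith)
    have h3 : ((2 : ℝ) ^ (-κ)) ^ i1 ≤ ((2 : ℝ) ^ (-κ)) ^ i := pow_le_pow_of_le_one (by positivity) h2 hi.le
    have h4 : (((2 : ℝ) ^ (-κ)) ^ i1)⁻¹ * ((2 : ℝ) ^ (-κ)) ^ i1 = 1 := inv_mul_cancel₀ (hpos i1).ne'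
    have h5 : (((2 : ℝ) ^ (-κ)) ^ i1)⁻¹ * ((2 : ℝ) ^ (-κ)) ^ i1 ≤
        (K + (((2 : ℝ) ^ (-κ)) ^ i1)⁻¹) * ((2 : ℝ) ^ (-κ)) ^ i := by
      apply mul_le_mul _ h3 (hpos i1).le (by positivity)
      linarith
    linarith

/-- **All lengths in a range.** -/
theorem fam (s k : ℕ) (g η ε ρ C₂ : ℝ) (hs : 1 ≤ s) (hM : Mv s k g) (hg : g ≤ 2 * s) (hη1 : η ≤ 1)
    (hε : 0 ≤ ε) (hρ : 0 < ρ) (hC₂ : 0 ≤ C₂) (hκ : ρ < g - 1 - 2 * s * (η - ε)) :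
    ∃ C : ℝ, 0 < C ∧ ∀ (ι : Type) (A : Finset ι) (T : ι → ℝ) (L : ℕ), 1 ≤ L →
      (∀ D : ℤ, D ≠ 0 → D.natAbs ≤ s * (2 * L) ^ k →
        ‖∑ a ∈ A, e (T a * (D : ℝ))‖ ≤ C₂ * A.card / (2 * (L : ℝ)) ^ (2 * s)) →
      ∀ N₀ : ℕ, 1 ≤ N₀ →
      ((A.filter fun a => ∃ N : ℕ, N₀ ≤ N ∧ N ≤ L ∧ ∃ ξ : ℝ, (N : ℝ) ^ (1 - η + ε) < ‖sm k N (T a) ξ‖).card : ℝ) ≤
        C * (N₀ : ℝ) ^ (-(g - 1 - 2 * s * (η - ε) - ρ)) * A.card := by
  obtain ⟨K, hK, h⟩ := blockAll s k g η ε ρ C₂ hs hM hg hη1 hε hρ hC₂ hκ.le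
  set κ : ℝ := g - 1 - 2 * s * (η - ε) - ρ with hκ'
  have hκ0 : 0 < κ := by rw [hκ']; linarith
  set x : ℝ := (2 : ℝ) ^ (-κ) with hx
  have hx0 : 0 < x := by positivity
  have hx1 : x < 1 := Real.rpow_lt_one_of_one_lt_of_neg (by norm_num) (by linarith)
  refine ⟨K / (1 - x), div_pos hK (by linarith), fun ι A T L hL hE N₀ hN₀ => ?_⟩
  set I : ℕ := Nat.log 2 (2 * L) with hI
  set i0 : ℕ := Nat.clog 2 N₀ with hi0
  have hA0 : (0 : ℝ) ≤ A.card := by positivity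
  have hL1 : (1 : ℝ) ≤ L := by exact_mod_cast hL
  have hsub : A.filter (fun a => ∃ N : ℕ, N₀ ≤ N ∧ N ≤ L ∧ ∃ ξ : ℝ, (N : ℝ) ^ (1 - η + ε) < ‖sm k N (T a) ξ‖) ⊆
      (Ico i0 (I + 1)).biUnion fun i => A.filter fun a => badAt k (1 - η + ε) (T a) i := by
    intro a ha
    rw [mem_filter] at ha
    obtain ⟨haA, N, hN0, hNL, ξ, hξ⟩ := ha
    obtain ⟨i, hi1, hi2⟩ : ∃ i : ℕ, N ≤ 2 ^ i ∧ 2 ^ i ≤ 2 * N := by
      refine ⟨Nat.log 2 N + 1, (Nat.lt_pow_succ_log_self (by norm_num) N).le, ?_⟩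
      have := Nat.pow_log_le_self 2 (show N ≠ 0 by omega)
      rw [pow_succ]
      omega
    rw [mem_biUnion]
    refine ⟨i, ?_, ?_⟩
    · rw [mem_Ico]
      constructor
      · rw [hi0]
        exact Nat.clog_le_of_le_pow (hN0.trans hi1)
      · have : i ≤ I := by
          rw [hI]
          exact Nat.le_log_of_pow_le (by norm_num) (by omega)
        omega
    · rw [mem_filter]
      exact ⟨haA, N, hi1, hi2, ξ, hξ⟩
  have h1 : ((A.filter (fun a => ∃ N : ℕ, N₀ ≤ N ∧ N ≤ L ∧ ∃ ξ : ℝ,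
      (N : ℝ) ^ (1 - η + ε) < ‖sm k N (T a) ξ‖)).card : ℝ) ≤
      ∑ i ∈ Ico i0 (I + 1), ((A.filter fun a => badAt k (1 - η + ε) (T a) i).card : ℝ) := by
    have := (card_le_card hsub).trans card_biUnion_le
    exact_mod_cast this
  have h2 : ∀ i ∈ Ico i0 (I + 1), ((A.filter fun a => badAt k (1 - η + ε) (T a) i).card : ℝ) ≤
      K * x ^ i * A.card := by
    intro i hi
    rw [mem_Ico] at hi
    have hiL : 2 ^ i ≤ 2 * L := by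
      have h3 : 2 ^ i ≤ 2 ^ I := Nat.pow_le_pow_right (by norm_num) (by omega)
      exact h3.trans (Nat.pow_log_le_self 2 (by omega))
    have hiL' : ((2 : ℝ) ^ i) ≤ 2 * L := by exact_mod_cast hiL
    have hL2 : (0 : ℝ) < 2 * (L : ℝ) := by linarith
    refine h i ι A T (C₂ * A.card / (2 * (L : ℝ)) ^ (2 * s)) (by positivity) (fun D hD hD2 => hE D hD ?_) ?_
    · exact hD2.trans (Nat.mul_le_mul_left _ (Nat.pow_le_pow_left hiL k))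
    · rw [mul_div_assoc', div_le_iff₀ (by positivity), mul_comm]
      apply mul_le_mul_of_nonneg_left _ (by positivity)
      calc ((2 : ℝ) ^ i) ^ (2 * s - 1) ≤ (2 * (L : ℝ)) ^ (2 * s - 1) := pow_le_pow_left₀ (by positivity) hiL' _
        _ ≤ (2 * (L : ℝ)) ^ (2 * s) := pow_le_pow_right₀ (by linarith) (by omega)
  refine h1.trans ((sum_le_sum h2).trans ?_)
  rw [← sum_mul, ← mul_sum]
  apply mul_le_mul_of_nonneg_right _ hA0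
  have h4 := geom_sum_Ico_le_of_lt_one (m := i0) (n := I + 1) hx0.le hx1
  have h5 : x ^ i0 ≤ (N₀ : ℝ) ^ (-κ) := by
    have h6 : N₀ ≤ 2 ^ i0 := by
      rw [hi0]
      exact Nat.le_pow_clog (by norm_num) N₀
    have h7 : x ^ i0 = ((2 : ℝ) ^ i0) ^ (-κ) := by
      rw [hx, ← Real.rpow_natCast ((2 : ℝ) ^ (-κ)) i0, ← Real.rpow_natCast (2 : ℝ) i0,
        ← Real.rpow_mul (by norm_num), ← Real.rpow_mul (by norm_num)]
      congr 1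
      ring
    rw [h7]
    have hN0' : (0 : ℝ) < N₀ := by exact_mod_cast hN₀
    have h8 : (N₀ : ℝ) ≤ (2 : ℝ) ^ i0 := by exact_mod_cast h6
    exact Real.rpow_le_rpow_of_nonpos hN0' h8 (by linarith)
  have h1x : 0 < 1 - x := by linarith
  calc K * ∑ i ∈ Ico i0 (I + 1), x ^ i ≤ K * (x ^ i0 / (1 - x)) := mul_le_mul_of_nonneg_left h4 hK.le
    _ ≤ K * ((N₀ : ℝ) ^ (-κ) / (1 - x)) := by
        apply mul_le_mul_of_nonneg_left _ hK.le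
        exact div_le_div_of_nonneg_right h5 h1x.le
    _ = K / (1 - x) * (N₀ : ℝ) ^ (-κ) := by ring

end Pool.Agent.Run7.h566.WS
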