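import Pool.Agent.Run7.h556.MW.DimT
import Pool.Agent.Run7.h566.LW.Exp

/-! Weyl sums over families of leading coefficients, all linear coefficients at once. -/

set_option autoImplicit false

open Finset
open scoped Classical

namespace Pool.Agent.Run7.h566.WS

open Pool.Agent.TH181.MW (Q J Q_nonneg S_MAX_t)
open Pool.Agent.Run7.h556.MW (PR De Q_cos J_eq PR_card De_le Mv Mv_all big_le)
open Pool.Agent.W928.MW (e sm e_norm ev_pow ev_log)

/-- the moment over a family -/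
lemma sum_Q {ι : Type} (s k N : ℕ) (hs : 1 ≤ s) (A : Finset ι) (T : ι → ℝ) (E : ℝ) (hE0 : 0 ≤ E)
    (hE : ∀ D : ℤ, D ≠ 0 → D.natAbs ≤ s * N ^ k → ‖∑ a ∈ A, e (T a * (D : ℝ))‖ ≤ E) :
    ∑ a ∈ A, Q s k N (T a) ≤ (A.card : ℝ) * J s k N + (N : ℝ) ^ (2 * s - 1) * E := by
  have h1 : ∑ a ∈ A, Q s k N (T a) =
      ∑ z ∈ PR s N, ∑ a ∈ A, Real.cos (2 * Real.pi * (T a * ((De s k z : ℤ) : ℝ))) := by
    rw [Finset.sum_comm]
    exact sum_congr rfl fun a _ => Q_cos s k N (T a)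
  rw [h1]
  have h2 : ∀ z ∈ PR s N, ∑ a ∈ A, Real.cos (2 * Real.pi * (T a * ((De s k z : ℤ) : ℝ))) ≤
      (if De s k z = 0 then (A.card : ℝ) else 0) + E := by
    intro z hz
    split_ifs with h
    · have : ∑ a ∈ A, Real.cos (2 * Real.pi * (T a * ((De s k z : ℤ) : ℝ))) ≤ ∑ a ∈ A, (1 : ℝ) :=
        sum_le_sum fun a _ => Real.cos_le_one _
      rw [sum_const, nsmul_eq_mul, mul_one] at this
      linarith
    · rw [zero_add]
      refine le_trans ?_ (hE (De s k z) h (De_le s k N z hz))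
      have h3 : ∑ a ∈ A, Real.cos (2 * Real.pi * (T a * ((De s k z : ℤ) : ℝ))) =
          (∑ a ∈ A, e (T a * ((De s k z : ℤ) : ℝ))).re := by
        rw [Complex.re_sum]
        exact sum_congr rfl fun a _ => (Pool.Agent.Run7.h556.MW.e_re _).symm
      rw [h3]
      exact Complex.re_le_norm _
  refine (sum_le_sum h2).trans ?_
  rw [sum_add_distrib, sum_const, nsmul_eq_mul, ← sum_filter, sum_const, nsmul_eq_mul, J_eq]
  have h4 : ((PR s N).card : ℝ) ≤ (N : ℝ) ^ (2 * s - 1) := by exact_mod_cast PR_card s N hs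
  have := mul_le_mul_of_nonneg_right h4 hE0
  rw [mul_comm (A.card : ℝ)]
  linarith

/-- few members with large sums -/
lemma few {ι : Type} (s k N : ℕ) (hs : 1 ≤ s) (A : Finset ι) (T : ι → ℝ) (E : ℝ) (hE0 : 0 ≤ E)
    (hE : ∀ D : ℤ, D ≠ 0 → D.natAbs ≤ s * N ^ k → ‖∑ a ∈ A, e (T a * (D : ℝ))‖ ≤ E)
    (lam : ℝ) (hl : 0 < lam) :
    ((A.filter fun a => ∃ ξ : ℝ, lam < ‖sm k N (T a) ξ‖).card : ℝ) * lam ^ (2 * s) ≤
      ((s : ℝ) * N + 1) * ((A.card : ℝ) * J s k N + (N : ℝ) ^ (2 * s - 1) * E) := by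
  calc ((A.filter fun a => ∃ ξ : ℝ, lam < ‖sm k N (T a) ξ‖).card : ℝ) * lam ^ (2 * s)
      = ∑ a ∈ A.filter (fun a => ∃ ξ : ℝ, lam < ‖sm k N (T a) ξ‖), lam ^ (2 * s) := by
        rw [sum_const, nsmul_eq_mul]
    _ ≤ ∑ a ∈ A.filter (fun a => ∃ ξ : ℝ, lam < ‖sm k N (T a) ξ‖), ((s : ℝ) * N + 1) * Q s k N (T a) :=
        sum_le_sum fun a ha => by
          rw [mem_filter] at ha
          obtain ⟨_, ξ, hξ⟩ := ha
          exact (pow_le_pow_left₀ hl.le hξ.le _).trans (Pool.Agent.TH181.MW.sup s k N (T a) ξ)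
    _ ≤ ∑ a ∈ A, ((s : ℝ) * N + 1) * Q s k N (T a) :=
        sum_le_sum_of_subset_of_nonneg (filter_subset _ _) fun a _ _ =>
          mul_nonneg (by positivity) (Q_nonneg s k N _)
    _ = ((s : ℝ) * N + 1) * ∑ a ∈ A, Q s k N (T a) := by rw [mul_sum]
    _ ≤ _ := mul_le_mul_of_nonneg_left (sum_Q s k N hs A T E hE0 hE) (by positivity)

/-- large sums of some length in a dyadic block -/
def badAt (k : ℕ) (θ t : ℝ) (i : ℕ) : Prop :=
  ∃ N : ℕ, N ≤ 2 ^ i ∧ 2 ^ i ≤ 2 * N ∧ ∃ ξ : ℝ, (N : ℝ) ^ θ < ‖sm k N t ξ‖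

/-- one dyadic block -/
lemma block (s k : ℕ) (g η ε ρ C₂ : ℝ) (hs : 1 ≤ s) (hM : Mv s k g) (hg : g ≤ 2 * s) (hη1 : η ≤ 1)
    (hε : 0 ≤ ε) (hρ : 0 < ρ) (hC₂ : 0 ≤ C₂) :
    ∃ K : ℝ, 0 < K ∧ ∃ i1 : ℕ, ∀ i : ℕ, i1 ≤ i → ∀ (ι : Type) (A : Finset ι) (T : ι → ℝ) (E : ℝ), 0 ≤ E →
      (∀ D : ℤ, D ≠ 0 → D.natAbs ≤ s * (2 ^ i) ^ k → ‖∑ a ∈ A, e (T a * (D : ℝ))‖ ≤ E) →
      ((2 : ℝ) ^ i) ^ (2 * s - 1) * E ≤ C₂ * A.card →
      ((A.filter fun a => badAt k (1 - η + ε) (T a) i).card : ℝ) ≤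
        K * ((2 : ℝ) ^ i) ^ (-(g - 1 - 2 * s * (η - ε)) + ρ) * A.card := by
  set r : ℝ := ρ / (2 * s + 2) with hr
  have hr0 : 0 < r := by positivity
  have hrρ : (2 * s + 2) * r = ρ := by
    rw [hr]; field_simp
  set θ : ℝ := 1 - η + ε with hθ
  have hθ0 : 0 ≤ θ := by rw [hθ]; linarith
  obtain ⟨C, hC, hJ⟩ := hM r hr0
  obtain ⟨i1, h1⟩ := ev_log r hr0 ((2 : ℝ) ^ θ)
  refine ⟨((s : ℝ) + 1) * (C + C₂), by positivity, i1, fun i hi ι A T E hE0 hE hE2 => ?_⟩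
  have g1 := h1 i hi
  set X : ℝ := (2 : ℝ) ^ i with hX
  have hX1 : (1 : ℝ) ≤ X := one_le_pow₀ (by norm_num)
  have hX0 : (0 : ℝ) < X := by positivity
  have hNX : ((2 ^ i : ℕ) : ℝ) = X := by push_cast; rfl
  have hN1 : 1 ≤ 2 ^ i := Nat.one_le_two_pow
  set lam : ℝ := X ^ (θ - r) with hlam
  have hlam0 : 0 < lam := by positivity
  have hsub : A.filter (fun a => badAt k θ (T a) i) ⊆
      A.filter fun a => ∃ ξ : ℝ, lam < ‖sm k (2 ^ i) (T a) ξ‖ := by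
    intro a ha
    rw [mem_filter] at ha ⊢
    refine ⟨ha.1, ?_⟩
    obtain ⟨_, N, hN, hN2, ξ, hξ⟩ := ha
    by_contra hcon
    push Not at hcon
    have k1 := S_MAX_t k (2 ^ i) N (T a) lam hN1 hN hcon ξ
    rw [hNX] at k1
    have hMX : X / 2 ≤ (N : ℝ) := by
      have : ((2 ^ i : ℕ) : ℝ) ≤ ((2 * N : ℕ) : ℝ) := by exact_mod_cast hN2
      push_cast at this
      linarith
    have k3 : X ^ θ / 2 ^ θ ≤ (N : ℝ) ^ θ := by
      rw [← Real.div_rpow hX0.le (by norm_num)]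
      exact Real.rpow_le_rpow (by positivity) hMX hθ0
    have k4 : X ^ θ = X ^ r * lam := by
      rw [hlam, ← Real.rpow_add hX0]; congr 1; ring
    have k5 : X ^ θ / 2 ^ θ < (4 + 4 * Real.log X) * lam :=
      lt_of_le_of_lt k3 (lt_of_lt_of_le hξ k1)
    rw [div_lt_iff₀ (by positivity), k4] at k5
    have k6 : (2 : ℝ) ^ θ * (4 + 4 * Real.log X) * lam ≤ X ^ r * lam :=
      mul_le_mul_of_nonneg_right g1 hlam0.le
    have k7 : (4 + 4 * Real.log X) * lam * 2 ^ θ = (2 : ℝ) ^ θ * (4 + 4 * Real.log X) * lam := by ring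
    rw [k7] at k5
    linarith
  have h2 := few s k (2 ^ i) hs A T E hE0 hE lam hlam0
  rw [hNX] at h2
  have hJ' := hJ (2 ^ i) hN1
  rw [hNX] at hJ'
  have hs0 : (0 : ℝ) ≤ s := by positivity
  have m0 : (1 : ℝ) ≤ X ^ (2 * (s : ℝ) - g + r) := Real.one_le_rpow hX1 (by linarith)
  have m1 : (s : ℝ) * X + 1 ≤ ((s : ℝ) + 1) * X := by nlinarith
  have m2 : lam ^ (2 * s) = X ^ ((θ - r) * (2 * s)) := by
    rw [hlam, ← Real.rpow_natCast, ← Real.rpow_mul hX0.le]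
    push_cast
    rfl
  have m3 : (A.card : ℝ) * J s k (2 ^ i) + X ^ (2 * s - 1) * E ≤
      (C + C₂) * X ^ (2 * (s : ℝ) - g + r) * A.card := by
    have hA0 : (0 : ℝ) ≤ A.card := by positivity
    have n1 : (A.card : ℝ) * J s k (2 ^ i) ≤ A.card * (C * X ^ (2 * (s : ℝ) - g + r)) :=
      mul_le_mul_of_nonneg_left hJ' hA0
    have n2 : C₂ * (A.card : ℝ) ≤ C₂ * A.card * X ^ (2 * (s : ℝ) - g + r) :=
      le_mul_of_one_le_right (by positivity) m0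
    nlinarith
  have h3 : ((A.filter fun a => badAt k θ (T a) i).card : ℝ) ≤
      ((A.filter fun a => ∃ ξ : ℝ, lam < ‖sm k (2 ^ i) (T a) ξ‖).card : ℝ) := by
    exact_mod_cast card_le_card hsub
  refine h3.trans ?_
  have h4 : ((A.filter fun a => ∃ ξ : ℝ, lam < ‖sm k (2 ^ i) (T a) ξ‖).card : ℝ) * lam ^ (2 * s) ≤
      (((s : ℝ) + 1) * X) * ((C + C₂) * X ^ (2 * (s : ℝ) - g + r) * A.card) := by
    refine h2.trans ?_
    apply mul_le_mul m1 m3 (by positivity) (by positivity)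
  rw [m2] at h4
  have h5 : (((s : ℝ) + 1) * X) * ((C + C₂) * X ^ (2 * (s : ℝ) - g + r) * A.card) =
      (((s : ℝ) + 1) * (C + C₂) * X ^ (1 + (2 * (s : ℝ) - g + r) - (θ - r) * (2 * s)) * A.card) *
        X ^ ((θ - r) * (2 * s)) := by
    have : X ^ (1 + (2 * (s : ℝ) - g + r) - (θ - r) * (2 * s)) * X ^ ((θ - r) * (2 * s)) =
        X * X ^ (2 * (s : ℝ) - g + r) := by
      rw [← Real.rpow_add hX0]
      have e1 : (1 + (2 * (s : ℝ) - g + r) - (θ - r) * (2 * s)) + (θ - r) * (2 * s) =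
          1 + (2 * (s : ℝ) - g + r) := by ring
      rw [e1, Real.rpow_add hX0, Real.rpow_one]
    calc (((s : ℝ) + 1) * X) * ((C + C₂) * X ^ (2 * (s : ℝ) - g + r) * A.card)
        = ((s : ℝ) + 1) * (C + C₂) * A.card * (X * X ^ (2 * (s : ℝ) - g + r)) := by ring
      _ = _ := by rw [← this]; ring
  rw [h5] at h4
  have h6 := le_of_mul_le_mul_right h4 (by positivity : (0 : ℝ) < X ^ ((θ - r) * (2 * s)))
  refine h6.trans ?_
  apply mul_le_mul_of_nonneg_right _ (by positivity)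
  apply mul_le_mul_of_nonneg_left _ (by positivity)
  apply Real.rpow_le_rpow_of_exponent_le hX1
  rw [← hrρ, hθ]
  nlinarith

end Pool.Agent.Run7.h566.WS
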